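import Pool.Agent.Q67.TP.Final

/-!
# MP_57341d_ag: the transcendence degree of the periods, Hodge classes and de Rham-Betti classes
-/

set_option autoImplicit false

open CategoryTheory AlgebraicGeometry

universe u

namespace Pool.Agent.Results.MP_57341d_ag.HodgeClassesTranscendence

open Pool.Agent.H914
open Pool.Agent.Y133.Half (pw)
open Pool.Agent.Q67.TP.S

/-- Let `S` be a theory consisting of a Hodge theory (a Weil cohomology theory with rational
coefficients with a Hodge decomposition of its cohomology with complex coefficients) and of the
algebraic de Rham cohomology over the field of the algebraic numbers, a graded subspace of the
cohomology with complex coefficients which is stable under products and pull-backs and contains the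
classes `(2 π i) ^ j cl(z)`. Let `u` be a polarisation of the cohomology of `X` which is given by
classes which are both Hodge classes and de Rham-Betti classes. (Such a polarisation exists for
every smooth projective variety over the algebraic numbers, by the hard Lefschetz theorem and the
Hodge-Riemann relations.) `lie R X` is the Lie algebra of the operators on the rational cohomology
of `X` which kill (as derivations) the classes in `R` on all powers of `X`, and `lieDim R X` is its
dimension; so `lieDim (hodge S.T) X + 1` is the dimension of the Mumford-Tate group of `X` if `X` is
of positive dimension (one dimension is due to the Tate twists).

* All Hodge classes on all powers of `X` are de Rham-Betti classes if and only if all operators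
  which kill the classes which are both Hodge and de Rham-Betti classes on all powers, kill the
  Hodge classes on `X^4` and, if they are in the centre of the algebra of the Hodge
  correspondences, kill the Hodge classes on all powers; it suffices that the Hodge classes on `X^4`
  are de Rham-Betti classes, if no nonzero element of the centre of the algebra of the
  correspondences given by classes of both kinds is skew-symmetric.
* The transcendence degree of the field generated by the periods of `X` is at most the dimension of
  the Lie algebra of the operators which kill all classes which are both Hodge and de Rham-Betti
  classes, plus one; if it is equal to this number, then all de Rham-Betti classes on all powers of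
  `X` are Hodge classes.
* So if all Hodge classes on `X^4` are de Rham-Betti classes and there are no skew-symmetric central
  elements, then all Hodge classes on all powers of `X` are de Rham-Betti classes, the transcendence
  degree of the field of periods of `X` is at most the dimension of the Mumford-Tate group, and if
  it is equal to this dimension, then the de Rham-Betti classes and the Hodge classes on all powers
  of `X` are the same. -/
theorem result {k : Type u} [Field k] {𝒱 : VarClass k} {ops : CycleOps 𝒱} (S : Theory ops)
    (X : 𝒱.Obj) [Nontrivial (RH S.T X)] (u : ROp S.T X)
    (hu : PolarisedBy (meet (hodge S.T) (drb S)) X u) :
    Fourth (hodge S.T) (drb S) X ∧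
      trdegOf (periods S X) ≤ (lieDim (meet (hodge S.T) (drb S)) X + 1 : ℕ) ∧
      (trdegOf (periods S X) = (lieDim (meet (hodge S.T) (drb S)) X + 1 : ℕ) →
        Sub (drb S) (hodge S.T) X) ∧
      (hodge S.T (pw X 3) ⊆ drb S (pw X 3) → NoCentralSkew (meet (hodge S.T) (drb S)) X →
        Sub (hodge S.T) (drb S) X ∧ trdegOf (periods S X) ≤ (lieDim (hodge S.T) X + 1 : ℕ) ∧
        (trdegOf (periods S X) = (lieDim (hodge S.T) X + 1 : ℕ) → Sub (drb S) (hodge S.T) X)) :=
  fourth_periods S X u hu

end Pool.Agent.Results.MP_57341d_ag.HodgeClassesTranscendence
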